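import Pool.Agent.H815.QC.Stm

/-!
# Project QC: finite index on the second side
-/

set_option autoImplicit false

namespace Pool.Agent.H402.QC

open Pool.Agent.Y110.FJ Pool.Agent.T2H65.GP Pool.Agent.H815.QC

theorem gp_one_pow {V : Type} (Λ : SimpleGraph V) (w : V) (k : ℕ) :
    (gp Λ w 1) ^ k = gp Λ w (k : ℤ) := by
  unfold gp
  rw [← map_pow, ← ofAdd_nsmul, nsmul_eq_mul, mul_one]

theorem R4_proof : S_R4 := by
  intro V _ Λ N _ β hβ b w
  have hfi : β.range.index ≠ 0 := hβ.2.index_ne_zero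
  obtain ⟨k, hk, -, n, hn⟩ := Subgroup.exists_pow_mem_of_index_ne_zero hfi (b * gp Λ w 1 * b⁻¹)
  refine ⟨(k : ℤ), by exact_mod_cast hk, n, ?_⟩
  rw [hn, conj_pow, gp_one_pow]

end Pool.Agent.H402.QC
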